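import Mathlib
import Pool.Agent.Lib.P3852e9.Conf

/-!
# Sums of two points on circles have an absolutely continuous distribution
-/

set_option autoImplicit false

namespace Pool.Agent.Lib.P3852L

open MeasureTheory Set Pool.Agent.Lib.P3852e9

lemma cis_add_two_pi (t : ℝ) : cis (t + 2 * Real.pi) = cis t := by
  rw [cis_add, cis_two_pi, mul_one]

/-- translation of an almost everywhere statement -/
lemma ae_add {P : ℝ → Prop} (h : ∀ᵐ t : ℝ, P t) (c : ℝ) : ∀ᵐ t : ℝ, P (t + c) :=
  (measurePreserving_add_right (volume : Measure ℝ) c).quasiMeasurePreserving.ae h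

lemma ae_neg {P : ℝ → Prop} (h : ∀ᵐ t : ℝ, P t) : ∀ᵐ t : ℝ, P (-t) :=
  (Measure.measurePreserving_neg (volume : Measure ℝ)).quasiMeasurePreserving.ae h

/-- A periodic property which holds almost everywhere in a period. -/
lemma ae_of_period {P : ℝ → Prop} (hP : ∀ t, P (t + 2 * Real.pi) ↔ P t) {a : ℝ}
    (h : ∀ᵐ t : ℝ, t ∈ Ioc a (a + 2 * Real.pi) → P t) : ∀ᵐ t : ℝ, P t := by
  have hZ : ∀ (k : ℤ) (t : ℝ), P (t + k * (2 * Real.pi)) ↔ P t := by
    intro k t
    have hQ : ∀ (n : ℕ) (t : ℝ), P (t + n * (2 * Real.pi)) ↔ P t := by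
      intro n
      induction n with
      | zero => intro t; simp
      | succ n ih =>
        intro t
        have e : t + ((n + 1 : ℕ) : ℝ) * (2 * Real.pi) = (t + n * (2 * Real.pi)) + 2 * Real.pi := by
          push_cast; ring
        rw [e, hP, ih]
    obtain ⟨n, rfl | rfl⟩ := k.eq_nat_or_neg
    · exact_mod_cast hQ n t
    · rw [← hQ n (t + ((-(n : ℤ) : ℤ) : ℝ) * (2 * Real.pi))]
      have e : t + ((-(n : ℤ) : ℤ) : ℝ) * (2 * Real.pi) + n * (2 * Real.pi) = t := by
        push_cast; ring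
      rw [e]
  have h2 : ∀ᵐ t : ℝ, ∀ k : ℤ, t + k * (2 * Real.pi) ∈ Ioc a (a + 2 * Real.pi) →
      P (t + k * (2 * Real.pi)) := by
    rw [ae_all_iff]
    intro k
    exact ae_add h _
  filter_upwards [h2] with t ht
  obtain ⟨k, hk, -⟩ := existsUnique_add_zsmul_mem_Ioc (Real.two_pi_pos) t a
  rw [zsmul_eq_mul] at hk
  exact (hZ k t).1 (ht k hk)

/-- Almost every circle about the origin meets a null set in a null set of angles. -/
theorem ae_circle {N : Set ℂ} (hN : volume N = 0) :
    ∀ᵐ R : ℝ, 0 < R → ∀ᵐ α : ℝ, (R : ℂ) * cis α ∉ N := by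
  set N' : Set ℂ := toMeasurable volume N with hN'
  have hNm : MeasurableSet N' := measurableSet_toMeasurable _ _
  have hN0 : volume N' = 0 := by rw [hN', measure_toMeasurable, hN]
  have hsub : N ⊆ N' := subset_toMeasurable _ _
  have h1 := Complex.lintegral_comp_polarCoord_symm (N'.indicator fun _ => 1)
  rw [lintegral_indicator hNm, setLIntegral_one, hN0] at h1
  have hmeas : Measurable fun p : ℝ × ℝ => Complex.polarCoord.symm p := by
    have : (fun p : ℝ × ℝ => Complex.polarCoord.symm p) =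
        fun p : ℝ × ℝ => (p.1 : ℂ) * (Real.cos p.2 + Real.sin p.2 * Complex.I) := by
      funext p
      exact Complex.polarCoord_symm_apply p
    rw [this]
    have : Continuous fun p : ℝ × ℝ => (p.1 : ℂ) * (Real.cos p.2 + Real.sin p.2 * Complex.I) := by
      fun_prop
    exact this.measurable
  rw [lintegral_eq_zero_iff (by
    refine Measurable.mul ?_ ?_
    · exact ENNReal.measurable_ofReal.comp measurable_fst
    · exact (measurable_const.indicator hNm).comp hmeas)] at h1
  rw [Filter.EventuallyEq, ae_restrict_iff' (by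
    exact polarCoord.open_target.measurableSet)] at h1
  have h2 := Measure.ae_ae_of_ae_prod (μ := (volume : Measure ℝ)) (ν := (volume : Measure ℝ)) h1
  filter_upwards [h2] with R hR hRpos
  have h3 : ∀ᵐ α : ℝ, α ∈ Ioc (-Real.pi) (-Real.pi + 2 * Real.pi) → (R : ℂ) * cis α ∉ N := by
    have hne : ∀ᵐ α : ℝ, α ≠ Real.pi := by
      rw [ae_iff]
      simp
    filter_upwards [hR, hne] with α hα hα' hmem hin
    have hmem2 : α ∈ Ioo (-Real.pi) Real.pi := by
      refine ⟨hmem.1, lt_of_le_of_ne ?_ hα'⟩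
      have := hmem.2
      linarith
    have h4 := hα ⟨hRpos, hmem2⟩
    have e : Complex.polarCoord.symm (R, α) = (R : ℂ) * cis α := by
      rw [Complex.polarCoord_symm_apply]
      unfold cis
      rw [Complex.exp_mul_I]
      push_cast
      rfl
    rw [e, indicator_of_mem (hsub hin)] at h4
    simp only [smul_eq_mul, mul_one, Pi.zero_apply, ENNReal.ofReal_eq_zero] at h4
    linarith
  refine ae_of_period (fun t => ?_) h3
  rw [cis_add_two_pi]

/-- The cosine of almost every angle avoids a null set. -/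
theorem ae_cos {Z : Set ℝ} (hZ : volume Z = 0) : ∀ᵐ θ : ℝ, Real.cos θ ∉ Z := by
  have him : volume (Real.arccos '' (Z ∩ Ioo (-1) 1)) = 0 := by
    apply addHaar_image_eq_zero_of_differentiableOn_of_addHaar_eq_zero
    · intro x hx
      apply DifferentiableAt.differentiableWithinAt
      apply Real.differentiableAt_arccos.2
      exact ⟨by rintro rfl; exact lt_irrefl _ hx.2.1, by rintro rfl; exact lt_irrefl _ hx.2.2⟩
    · exact measure_mono_null inter_subset_left hZ
  have h1 : ∀ᵐ θ : ℝ, θ ∉ Real.arccos '' (Z ∩ Ioo (-1) 1) := by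
    rw [ae_iff]
    simp only [not_not]
    exact him
  have h2 := ae_neg h1
  have h3 : ∀ᵐ θ : ℝ, θ ≠ 0 ∧ θ ≠ Real.pi := by
    rw [ae_iff]
    refine measure_mono_null (t := {0, Real.pi}) ?_ (Set.Finite.measure_zero (by simp) _)
    intro x hx
    simp only [ne_eq, mem_ofPred_eq, not_and_or, not_not] at hx
    simpa using hx
  have h4 : ∀ᵐ θ : ℝ, θ ∈ Ioc (-Real.pi) (-Real.pi + 2 * Real.pi) → Real.cos θ ∉ Z := by
    filter_upwards [h1, h2, h3] with θ h1 h2 h3 hmem hZ
    have hle : θ < Real.pi := lt_of_le_of_ne (by have := hmem.2; linarith) h3.2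
    have hge := hmem.1
    rcases lt_or_gt_of_ne h3.1 with hneg | hpos
    · apply h2
      refine ⟨Real.cos θ, ⟨hZ, ?_, ?_⟩, ?_⟩
      · rw [← Real.cos_neg, ← Real.cos_pi]
        exact Real.cos_lt_cos_of_nonneg_of_le_pi (by linarith) le_rfl (by linarith)
      · rw [← Real.cos_neg, ← Real.cos_zero]
        exact Real.cos_lt_cos_of_nonneg_of_le_pi le_rfl (by linarith) (by linarith)
      · rw [← Real.cos_neg]
        exact Real.arccos_cos (by linarith) (by linarith)
    · apply h1
      refine ⟨Real.cos θ, ⟨hZ, ?_, ?_⟩, ?_⟩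
      · rw [← Real.cos_pi]
        exact Real.cos_lt_cos_of_nonneg_of_le_pi (by linarith) le_rfl (by linarith)
      · rw [← Real.cos_zero]
        exact Real.cos_lt_cos_of_nonneg_of_le_pi le_rfl (by linarith) (by linarith)
      · exact Real.arccos_cos (by linarith) (by linarith)
  refine ae_of_period (fun t => ?_) h4
  rw [Real.cos_add_two_pi]

/-- the square of the distance -/
lemma norm_sq_add_cis (s ρ θ : ℝ) :
    ‖(s : ℂ) + ρ * cis θ‖ ^ 2 = s ^ 2 + ρ ^ 2 + 2 * s * ρ * Real.cos θ := by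
  rw [← Complex.normSq_eq_norm_sq, Complex.normSq_apply]
  simp only [Complex.add_re, Complex.add_im, Complex.mul_re, Complex.mul_im, cis_re, cis_im,
    Complex.ofReal_re, Complex.ofReal_im]
  have := Real.sin_sq_add_cos_sq θ
  nlinarith [this]

theorem ae_two_aux {N : Set ℂ} (hNm : MeasurableSet N) (hN : volume N = 0) {s ρ : ℝ} (hs : 0 < s)
    (hρ : 0 < ρ) : ∀ᵐ p : ℝ × ℝ, (s : ℂ) * cis p.1 + ρ * cis p.2 ∉ N := by
  have hc := continuous_cis
  have h1 := ae_circle hN
  -- the exceptional radii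
  set Z : Set ℝ := {R | ¬ (0 < R → ∀ᵐ α : ℝ, (R : ℂ) * cis α ∉ N)} with hZdef
  have hZ : volume Z = 0 := h1
  set q : ℝ → ℝ := fun R => (R ^ 2 - s ^ 2 - ρ ^ 2) / (2 * s * ρ) with hq
  have hqZ : volume (q '' Z) = 0 := by
    apply addHaar_image_eq_zero_of_differentiableOn_of_addHaar_eq_zero
    · have : Differentiable ℝ q := by
        intro x
        simp only [hq]
        fun_prop
      exact this.differentiableOn
    · exact hZ
  have hqZ' : volume (q '' Z ∪ {-1}) = 0 := by
    rw [measure_union_null_iff]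
    exact ⟨hqZ, by simp⟩
  have h2 := ae_cos hqZ'
  have h3 : ∀ᵐ θ : ℝ, ∀ᵐ α : ℝ, cis α * ((s : ℂ) + ρ * cis θ) ∉ N := by
    filter_upwards [h2] with θ hθ
    have hcos : Real.cos θ = q ‖(s : ℂ) + ρ * cis θ‖ := by
      simp only [hq]
      rw [norm_sq_add_cis]
      field_simp
      ring
    have hpos : 0 < ‖(s : ℂ) + ρ * cis θ‖ := by
      rw [norm_pos_iff]
      intro h0
      apply hθ
      right
      have hn := norm_sq_add_cis s ρ θ
      rw [h0, norm_zero] at hn
      have hc1 := Real.neg_one_le_cos θ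
      have : Real.cos θ ≤ -1 := by
        by_contra hcon
        push Not at hcon
        nlinarith [sq_nonneg (s - ρ), mul_pos hs hρ]
      exact le_antisymm this hc1
    have hR : ‖(s : ℂ) + ρ * cis θ‖ ∉ Z := by
      intro hin
      apply hθ
      left
      exact ⟨_, hin, hcos.symm⟩
    simp only [hZdef, mem_ofPred_eq, not_not] at hR
    have hR' := hR hpos
    obtain ⟨φ, hφ⟩ : ∃ φ : ℝ, (s : ℂ) + ρ * cis θ = (‖(s : ℂ) + ρ * cis θ‖ : ℂ) * cis φ := by
      refine ⟨Complex.arg ((s : ℂ) + ρ * cis θ), ?_⟩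
      exact (Complex.norm_mul_exp_arg_mul_I _).symm
    have h5 := ae_add hR' φ
    filter_upwards [h5] with α hα
    have e : cis α * ((s : ℂ) + ρ * cis θ) = (‖(s : ℂ) + ρ * cis θ‖ : ℂ) * cis (α + φ) := by
      rw [cis_add]
      linear_combination (cis α) * hφ
    rw [e]
    exact hα
  have h4 : ∀ᵐ α : ℝ, ∀ᵐ θ : ℝ, cis α * ((s : ℂ) + ρ * cis θ) ∉ N := by
    refine (Measure.ae_ae_comm ?_).1 h3
    refine MeasurableSet.compl ?_
    have : Continuous fun p : ℝ × ℝ => cis p.2 * ((s : ℂ) + ρ * cis p.1) := by fun_prop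
    exact this.measurable hNm
  have hm : MeasurableSet {p : ℝ × ℝ | (s : ℂ) * cis p.1 + ρ * cis p.2 ∉ N} := by
    refine MeasurableSet.compl ?_
    have : Continuous fun p : ℝ × ℝ => (s : ℂ) * cis p.1 + ρ * cis p.2 := by fun_prop
    exact this.measurable hNm
  refine (Measure.ae_prod_iff_ae_ae (μ := (volume : Measure ℝ)) (ν := (volume : Measure ℝ)) hm).2 ?_
  filter_upwards [h4] with α hα
  filter_upwards [ae_add hα (-α)] with β hβ
  have e : cis α * ((s : ℂ) + ρ * cis (β + -α)) = (s : ℂ) * cis α + ρ * cis β := by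
    have : cis β = cis α * cis (β + -α) := by rw [← cis_add]; congr 1; ring
    rw [this]
    ring
  rwa [e] at hβ

/-- The sum of points on two circles about the origin avoids a null set almost surely. -/
theorem ae_two {N : Set ℂ} (hN : volume N = 0) {s ρ : ℝ} (hs : 0 < s) (hρ : 0 < ρ) (z : ℂ)
    (δ : ℝ) : ∀ᵐ p : ℝ × ℝ, z + (s : ℂ) * cis p.1 + ρ * cis (p.2 + δ) ∉ N := by
  set N' : Set ℂ := toMeasurable volume ((fun w => z + w) ⁻¹' N) with hN'
  have hNm : MeasurableSet N' := measurableSet_toMeasurable _ _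
  have hN0 : volume N' = 0 := by
    rw [hN', measure_toMeasurable, measure_preimage_add, hN]
  have hsub : (fun w => z + w) ⁻¹' N ⊆ N' := subset_toMeasurable _ _
  have h1 := ae_two_aux hNm hN0 hs hρ
  have hqmp : Measure.QuasiMeasurePreserving (fun p : ℝ × ℝ => (p.1, p.2 + δ)) volume volume := by
    have := (MeasurePreserving.id (volume : Measure ℝ)).prod
      (measurePreserving_add_right (volume : Measure ℝ) δ)
    exact this.quasiMeasurePreserving
  filter_upwards [hqmp.ae h1] with p hp hin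
  apply hp
  apply hsub
  change z + ((s : ℂ) * cis p.1 + ρ * cis (p.2 + δ)) ∈ N
  rwa [← add_assoc]

end Pool.Agent.Lib.P3852L
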