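import Mathlib
import Pool.Agent.Lib.P3852L.Ac

/-!
# Continuity of the two-parameter families in the centre
-/

set_option autoImplicit false

namespace Pool.Agent.Lib.P3852L

open MeasureTheory Set Pool.Agent.Lib.P3852e9 Topology Filter

/-- Lebesgue measure on one period. -/
noncomputable def nu : Measure ℝ := volume.restrict (Ioc 0 (2 * Real.pi))

instance : IsFiniteMeasure nu := by
  unfold nu
  infer_instance

/-- the map -/
noncomputable def Phi (s ρ δ : ℝ) (p : ℝ × ℝ) : ℂ := (s : ℂ) * cis p.1 + ρ * cis (p.2 + δ)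

lemma continuous_Phi (s ρ δ : ℝ) : Continuous (Phi s ρ δ) := by
  have hc := continuous_cis
  unfold Phi
  fun_prop

lemma nu_prod_le : nu.prod nu ≤ (volume : Measure (ℝ × ℝ)) := by
  unfold nu
  rw [Measure.prod_restrict]
  exact Measure.restrict_le_self

/-- The distribution. -/
lemma map_ac {s ρ : ℝ} (hs : 0 < s) (hρ : 0 < ρ) (δ : ℝ) :
    (nu.prod nu).map (Phi s ρ δ) ≪ (volume : Measure ℂ) := by
  refine Measure.AbsolutelyContinuous.mk fun N hNm hN => ?_
  rw [Measure.map_apply (continuous_Phi s ρ δ).measurable hNm]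
  have h := ae_two hN hs hρ 0 δ
  rw [ae_iff] at h
  refine measure_mono_null ?_ (le_antisymm ((nu_prod_le _).trans h.le) zero_le)
  intro p hp
  change ¬ ((0 : ℂ) + (s : ℂ) * cis p.1 + ρ * cis (p.2 + δ) ∉ N)
  rw [not_not, zero_add]
  exact hp

/-- A finite measure absolutely continuous with respect to `ν`, uniformly. -/
lemma ac_uniform {X : Type*} [MeasurableSpace X] {μ ν : Measure X} [IsFiniteMeasure μ]
    [SigmaFinite ν] (h : μ ≪ ν) {ε : ENNReal} (hε : ε ≠ 0) :
    ∃ δ > 0, ∀ t : Set X, ν t < δ → μ t < ε := by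
  have hfin : ∫⁻ x, μ.rnDeriv ν x ∂ν ≠ ⊤ := by
    have := Measure.lintegral_rnDeriv_lt_top μ ν
    exact this.ne
  obtain ⟨δ, hδ, hh⟩ := exists_pos_setLIntegral_lt_of_measure_lt hfin hε
  refine ⟨δ, hδ, fun t ht => ?_⟩
  -- pass to a measurable superset
  have h1 : ν (toMeasurable ν t) < δ := by rwa [measure_toMeasurable]
  have h2 := hh _ h1
  have h3 : μ (toMeasurable ν t) = ∫⁻ x in toMeasurable ν t, μ.rnDeriv ν x ∂ν :=
    (Measure.setLIntegral_rnDeriv h _).symm
  calc μ t ≤ μ (toMeasurable ν t) := measure_mono (subset_toMeasurable ν t)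
    _ < ε := by rw [h3]; exact h2

/-- Translation continuity, in measure, for a measurable two-valued function. -/
theorem tendsto_shift {G : ℂ → Bool} (hG : Measurable G) {s ρ : ℝ} (hs : 0 < s) (hρ : 0 < ρ)
    (δ : ℝ) (z : ℂ) :
    Tendsto (fun z' : ℂ => (nu.prod nu) {p | G (z + Phi s ρ δ p) ≠ G (z' + Phi s ρ δ p)})
      (𝓝 z) (𝓝 0) := by
  set T : Set ℂ := {w | G w = true} ∩ Metric.closedBall z (s + ρ + 1) with hT
  have hTm : MeasurableSet T :=
    (hG (measurableSet_singleton true)).inter Metric.isClosed_closedBall.measurableSet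
  have hTf : volume T ≠ ⊤ :=
    ((measure_mono inter_subset_right).trans_lt measure_closedBall_lt_top).ne
  -- the translations
  let F : ℂ → C(ℂ, ℂ) := fun v => ⟨fun w => v + w, by fun_prop⟩
  have hF : Continuous F := by
    apply ContinuousMap.continuous_of_continuous_uncurry
    change Continuous fun p : ℂ × ℂ => p.1 + p.2
    fun_prop
  have hFm : ∀ v, MeasurePreserving (F v) volume volume := fun v =>
    measurePreserving_add_left volume v
  have h1 : Tendsto (fun z' : ℂ => volume (symmDiff (F z' ⁻¹' T) (F z ⁻¹' T))) (𝓝 z) (𝓝 0) :=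
    tendsto_measure_symmDiff_preimage_nhds_zero (hF.tendsto z) (Eventually.of_forall hFm) (hFm z)
      hTm.nullMeasurableSet hTf
  rw [ENNReal.tendsto_nhds_zero]
  intro ε hε
  obtain ⟨η, hη, hh⟩ := ac_uniform (map_ac hs hρ δ) hε.ne'
  have h2 : ∀ᶠ z' in 𝓝 z, volume (symmDiff (F z' ⁻¹' T) (F z ⁻¹' T)) < η :=
    h1.eventually (gt_mem_nhds hη)
  have h3 : ∀ᶠ z' in 𝓝 z, dist z' z < 1 := Metric.ball_mem_nhds z one_pos
  filter_upwards [h2, h3] with z' h2 h3
  have h4 := (hh _ h2).le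
  refine le_trans ?_ h4
  rw [Measure.map_apply (continuous_Phi s ρ δ).measurable
    (((hFm z').measurable hTm).symmDiff ((hFm z).measurable hTm))]
  apply measure_mono
  intro p hp
  have hp' : G (z + Phi s ρ δ p) ≠ G (z' + Phi s ρ δ p) := hp
  have hnorm : ‖Phi s ρ δ p‖ ≤ s + ρ := by
    unfold Phi
    refine (norm_add_le _ _).trans ?_
    rw [norm_mul, norm_mul, norm_cis, norm_cis, Complex.norm_real, Complex.norm_real,
      Real.norm_of_nonneg hs.le, Real.norm_of_nonneg hρ.le, mul_one, mul_one]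
  have m1 : z + Phi s ρ δ p ∈ Metric.closedBall z (s + ρ + 1) := by
    rw [Metric.mem_closedBall, dist_self_add_left]
    linarith
  have m2 : z' + Phi s ρ δ p ∈ Metric.closedBall z (s + ρ + 1) := by
    rw [Metric.mem_closedBall]
    have := dist_triangle (z' + Phi s ρ δ p) z' z
    rw [dist_self_add_left] at this
    linarith
  change Phi s ρ δ p ∈ symmDiff (F z' ⁻¹' T) (F z ⁻¹' T)
  rw [Set.mem_symmDiff]
  have e1 : Phi s ρ δ p ∈ F z ⁻¹' T ↔ G (z + Phi s ρ δ p) = true :=
    ⟨fun h => h.1, fun h => ⟨h, m1⟩⟩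
  have e2 : Phi s ρ δ p ∈ F z' ⁻¹' T ↔ G (z' + Phi s ρ δ p) = true :=
    ⟨fun h => h.1, fun h => ⟨h, m2⟩⟩
  rw [e1, e2]
  rcases h5 : G (z + Phi s ρ δ p) <;> rcases h6 : G (z' + Phi s ρ δ p) <;> simp_all

end Pool.Agent.Lib.P3852L
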