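import Mathlib
import Pool.Agent.Lib.P3852e9.Roots
import Pool.Agent.Lib.P3852e9.Dyn
import Pool.Agent.Lib.P3852L.Ac

/-!
# No measurable function on the circle satisfies all the relations
-/

set_option autoImplicit false

namespace Pool.Agent.Lib.P3852L

open MeasureTheory Set Pool.Agent.Lib.P3852e9 Topology Filter

/-- The group of the periods, almost everywhere, of a function. -/
def perGroup (F : ℝ → Bool) : AddSubgroup ℝ where
  carrier := {h | ∀ᵐ t : ℝ, F (t + h) = F t}
  zero_mem' := by
    change ∀ᵐ t : ℝ, F (t + 0) = F t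
    simp
  add_mem' := by
    intro a b ha hb
    change ∀ᵐ t : ℝ, F (t + (a + b)) = F t
    have ha' : ∀ᵐ t : ℝ, F (t + a) = F t := ha
    have hb' : ∀ᵐ t : ℝ, F (t + b) = F t := hb
    filter_upwards [ha', ae_add hb' a] with t h1 h2
    rw [← add_assoc, h2, h1]
  neg_mem' := by
    intro a ha
    change ∀ᵐ t : ℝ, F (t + -a) = F t
    have ha' : ∀ᵐ t : ℝ, F (t + a) = F t := ha
    filter_upwards [ae_add ha' (-a)] with t h1
    rw [← h1]
    congr 1
    ring

lemma mem_perGroup {F : ℝ → Bool} {h : ℝ} : h ∈ perGroup F ↔ ∀ᵐ t : ℝ, F (t + h) = F t := Iff.rfl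

/-- The group of the periods of a measurable function is closed. -/
theorem isClosed_perGroup {F : ℝ → Bool} (hF : NullMeasurableSet {t | F t = true} volume) :
    IsClosed (perGroup F : Set ℝ) := by
  rw [← isSeqClosed_iff_isClosed]
  intro u h hu hlim
  change ∀ᵐ t : ℝ, F (t + h) = F t
  -- it is enough to consider bounded intervals
  have key : ∀ M : ℕ, ∀ᵐ t : ℝ, t ∈ Icc (-(M : ℝ)) M → F (t + h) = F t := by
    intro M
    obtain ⟨B, hB⟩ : ∃ B : ℝ, ∀ n, |u n| ≤ B := by
      obtain ⟨B, hB⟩ := (Metric.isBounded_range_of_tendsto u hlim).exists_norm_le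
      exact ⟨B, fun n => hB _ ⟨n, rfl⟩⟩
    have hhB : |h| ≤ B := le_of_tendsto hlim.abs (Eventually.of_forall hB)
    set T : Set ℝ := {t | F t = true} ∩ Icc (-(M + B)) (M + B) with hT
    have hTm : NullMeasurableSet T volume := hF.inter measurableSet_Icc.nullMeasurableSet
    have hTf : volume T ≠ ⊤ :=
      ((measure_mono inter_subset_right).trans_lt measure_Icc_lt_top).ne
    let S : ℝ → C(ℝ, ℝ) := fun v => ⟨fun w => w + v, by fun_prop⟩
    have hS : Continuous S := by
      apply ContinuousMap.continuous_of_continuous_uncurry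
      change Continuous fun p : ℝ × ℝ => p.2 + p.1
      fun_prop
    have hSm : ∀ v, MeasurePreserving (S v) volume volume := fun v =>
      measurePreserving_add_right volume v
    have h1 : Tendsto (fun n => volume (symmDiff (S (u n) ⁻¹' T) (S h ⁻¹' T))) atTop (𝓝 0) :=
      tendsto_measure_symmDiff_preimage_nhds_zero ((hS.tendsto h).comp hlim)
        (Eventually.of_forall fun n => hSm _) (hSm h) hTm hTf
    have h2 : ∀ n, volume {t : ℝ | ¬ (t ∈ Icc (-(M : ℝ)) M → F (t + h) = F t)}
        ≤ volume (symmDiff (S (u n) ⁻¹' T) (S h ⁻¹' T)) := by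
      intro n
      have hun : ∀ᵐ t : ℝ, F (t + u n) = F t := hu n
      rw [ae_iff] at hun
      have : {t : ℝ | ¬ (t ∈ Icc (-(M : ℝ)) M → F (t + h) = F t)} ⊆
          (symmDiff (S (u n) ⁻¹' T) (S h ⁻¹' T)) ∪ {t | ¬ F (t + u n) = F t} := by
        intro t ht
        have ht' : ¬ (t ∈ Icc (-(M : ℝ)) M → F (t + h) = F t) := ht
        push Not at ht'
        obtain ⟨hmem, hne⟩ := ht'
        by_cases h3 : F (t + u n) = F t
        · left
          have b1 := abs_le.1 (hB n)
          have b2 := abs_le.1 hhB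
          have e1 : t ∈ S h ⁻¹' T ↔ F (t + h) = true :=
            ⟨fun h => h.1, fun h => ⟨h, by constructor <;>
              (try simp only [S, ContinuousMap.coe_mk]) <;> linarith [hmem.1, hmem.2]⟩⟩
          have e2 : t ∈ S (u n) ⁻¹' T ↔ F (t + u n) = true :=
            ⟨fun h => h.1, fun h => ⟨h, by constructor <;>
              (try simp only [S, ContinuousMap.coe_mk]) <;> linarith [hmem.1, hmem.2]⟩⟩
          rw [Set.mem_symmDiff, e1, e2, h3]
          rcases h5 : F (t + h) <;> rcases h6 : F t <;> simp_all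
        · right
          exact h3
      calc volume {t : ℝ | ¬ (t ∈ Icc (-(M : ℝ)) M → F (t + h) = F t)}
          ≤ volume ((symmDiff (S (u n) ⁻¹' T) (S h ⁻¹' T)) ∪ {t | ¬ F (t + u n) = F t}) :=
            measure_mono this
        _ ≤ volume (symmDiff (S (u n) ⁻¹' T) (S h ⁻¹' T)) + volume {t | ¬ F (t + u n) = F t} :=
            measure_union_le _ _
        _ = _ := by rw [hun, add_zero]
    rw [ae_iff]
    exact le_antisymm (ge_of_tendsto' h1 h2) zero_le
  have h4 : ∀ᵐ t : ℝ, ∀ M : ℕ, t ∈ Icc (-(M : ℝ)) M → F (t + h) = F t := by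
    rw [ae_all_iff]
    exact key
  filter_upwards [h4] with t ht
  obtain ⟨M, hM⟩ := exists_nat_ge |t|
  exact ht M (abs_le.1 hM)

/-- **No measurable function satisfies the relations.** -/
theorem type0 {F H : ℝ → Bool} (hF : NullMeasurableSet {t | F t = true} volume)
    (hper : ∀ t, F (t + 2 * Real.pi) = F t) {r g g' : ℝ} (hr1 : 1 < r)
    (hg : Real.cos g = r / 2) (hg' : Real.cos g' = 1 / (2 * r)) (hg0 : 0 < g)
    (hgg : g < g') (hg2 : g' < Real.pi / 2)
    (R1 : ∀ᵐ t : ℝ, F t ≠ F (t + Real.pi / 3))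
    (R2 : ∀ᵐ t : ℝ, H t ≠ F (t + g)) (R3 : ∀ᵐ t : ℝ, H t ≠ F (t + -g))
    (R4 : ∀ᵐ t : ℝ, H t ≠ F (t + g')) : False := by
  have hpi := Real.pi_pos
  have bb : ∀ a b c : Bool, a ≠ b → a ≠ c → b = c := by decide
  -- the periods
  have m0 : 2 * Real.pi ∈ perGroup F := by
    rw [mem_perGroup]
    exact Eventually.of_forall hper
  have m1 : g + g' ∈ perGroup F := by
    rw [mem_perGroup]
    filter_upwards [ae_add R4 g, ae_add R3 g] with t h1 h2
    have e1 : t + g + g' = t + (g + g') := by ring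
    have e2 : t + g + -g = t := by ring
    rw [e1] at h1
    rw [e2] at h2
    exact bb _ _ _ h1 h2
  have m2 : g' - g ∈ perGroup F := by
    rw [mem_perGroup]
    filter_upwards [ae_add R4 (-g), ae_add R2 (-g)] with t h1 h2
    have e1 : t + -g + g' = t + (g' - g) := by ring
    have e2 : t + -g + g = t := by ring
    rw [e1] at h1
    rw [e2] at h2
    exact bb _ _ _ h1 h2
  have m3 : Real.pi ∉ perGroup F := by
    intro hcon
    rw [mem_perGroup] at hcon
    have h3 : ∀ᵐ t : ℝ, False := by
      filter_upwards [hcon, R1, ae_add R1 (Real.pi / 3), ae_add R1 (2 * (Real.pi / 3))] with t h0 h1 h2 h3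
      have e1 : t + Real.pi / 3 + Real.pi / 3 = t + 2 * (Real.pi / 3) := by ring
      have e2 : t + 2 * (Real.pi / 3) + Real.pi / 3 = t + Real.pi := by ring
      rw [e1] at h2
      rw [e2] at h3
      revert h0 h1 h2 h3
      generalize F t = a
      generalize F (t + Real.pi / 3) = b
      generalize F (t + 2 * (Real.pi / 3)) = c
      generalize F (t + Real.pi) = d
      revert a b c d
      decide
    rw [Filter.eventually_false_iff_eq_bot, ae_eq_bot] at h3
    exact absurd h3 (NeZero.ne _)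
  have hnd : ¬ Dense (perGroup F : Set ℝ) := by
    intro hd
    apply m3
    have := (isClosed_perGroup hF).closure_eq
    rw [hd.closure_eq] at this
    have h4 : Real.pi ∈ (perGroup F : Set ℝ) := by rw [← this]; trivial
    exact h4
  rcases AddSubgroup.dense_or_cyclic (perGroup F) with hd | ⟨a, ha⟩
  · exact hnd hd
  rw [ha] at m0 m1 m2 m3
  rw [AddSubgroup.mem_closure_singleton] at m0 m1 m2
  obtain ⟨k, hk⟩ := m0
  obtain ⟨m, hm⟩ := m1
  obtain ⟨l, hl⟩ := m2
  rw [zsmul_eq_mul] at hk hm hl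
  have hkodd : Odd k := by
    rw [← Int.not_even_iff_odd]
    rintro ⟨j, hj⟩
    apply m3
    rw [AddSubgroup.mem_closure_singleton]
    refine ⟨j, ?_⟩
    rw [zsmul_eq_mul]
    rw [hj] at hk
    push_cast at hk
    linarith
  obtain ⟨n, hn⟩ : ∃ n : ℕ, k = n ∨ k = -n := k.eq_nat_or_neg
  have hnodd : Odd n := by
    rcases hn with h | h
    · rw [h] at hkodd; exact_mod_cast hkodd
    · rw [h] at hkodd
      have h0 := hkodd.neg
      rw [neg_neg] at h0
      exact_mod_cast h0
  have p1 := dyn_exp_pow (g + g') a k m n hn hk hm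
  have p2 := dyn_exp_pow (g' - g) a k l n hn hk hl
  have hsum : Complex.exp (((g + g' : ℝ) : ℂ) * Complex.I) + (Complex.exp (((g + g' : ℝ) : ℂ) * Complex.I))⁻¹
      + Complex.exp (((g' - g : ℝ) : ℂ) * Complex.I) + (Complex.exp (((g' - g : ℝ) : ℂ) * Complex.I))⁻¹ = 1 := by
    have hcos2 : ∀ x : ℝ, Complex.exp ((x : ℂ) * Complex.I) + (Complex.exp ((x : ℂ) * Complex.I))⁻¹
        = ((2 * Real.cos x : ℝ) : ℂ) := by
      intro x
      rw [← Complex.exp_neg, ← neg_mul, ← Complex.two_cos]
      push_cast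
      rfl
    have h5 := hcos2 (g + g')
    have h6 := hcos2 (g' - g)
    have h7 : 2 * Real.cos (g + g') + 2 * Real.cos (g' - g) = 1 := by
      rw [Real.cos_add, Real.cos_sub, hg, hg']
      have hr0 : r ≠ 0 := by linarith
      field_simp
      ring
    have h8 : ((2 * Real.cos (g + g') : ℝ) : ℂ) + ((2 * Real.cos (g' - g) : ℝ) : ℂ) = 1 := by
      rw [← Complex.ofReal_add, h7, Complex.ofReal_one]
    linear_combination h5 + h6 + h8
  have hone : ∀ x : ℝ, 0 < x → x < 2 * Real.pi → Complex.exp ((x : ℂ) * Complex.I) ≠ 1 := by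
    intro x hx0 hx2 h
    rw [Complex.exp_eq_one_iff] at h
    obtain ⟨j, hj⟩ := h
    have h9 : x = j * (2 * Real.pi) := by
      have h10 : (x : ℂ) * Complex.I = ((j * (2 * Real.pi) : ℝ) : ℂ) * Complex.I := by
        rw [hj]; push_cast; ring
      have h11 := mul_right_cancel₀ Complex.I_ne_zero h10
      exact_mod_cast h11
    rw [h9] at hx0 hx2
    have hj0 : (0 : ℝ) < j := by
      by_contra hcon
      push Not at hcon
      nlinarith
    have hj1 : (j : ℝ) < 1 := by
      by_contra hcon
      push Not at hcon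
      nlinarith
    have hj0' : 0 < j := by exact_mod_cast hj0
    have hj1' : j < 1 := by exact_mod_cast hj1
    omega
  rcases roots_eq_one hnodd p1 p2 hsum with h | h
  · exact hone _ (by linarith) (by linarith) h
  · exact hone _ (by linarith) (by linarith) h

end Pool.Agent.Lib.P3852L
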