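import Mathlib
import Pool.Agent.Lib.P3852L.Shift
import Pool.Agent.Lib.P3852L.Type0

/-!
# Continuity of the circle traces of the colouring
-/

set_option autoImplicit false

namespace Pool.Agent.Lib.P3852L

open MeasureTheory Set Pool.Agent.Lib.P3852e9 Topology Filter

/-- the radius of the first point of the four relations -/
noncomputable def rad (r : ℝ) : Fin 4 → ℝ := ![1, r, r, r]

/-- the angle between the two points of the four relations -/
noncomputable def ang (g g' : ℝ) : Fin 4 → ℝ := ![Real.pi / 3, g, -g, g']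

/-- The data: `f` avoids the triangles with sides in `{1, r}`, `G` is measurable and equal to `f`
almost everywhere; `cos g = r / 2`, `cos g' = 1 / (2 r)`. -/
structure Data (f G : ℂ → Bool) (r g g' : ℝ) : Prop where
  hG : Measurable G
  hfG : f =ᵐ[volume] G
  r1 : 1 < r
  hg : Real.cos g = r / 2
  hg' : Real.cos g' = 1 / (2 * r)
  g0 : 0 < g
  gg : g < g'
  g2 : g' < Real.pi / 2
  rel : ∀ (i : Fin 4) (y : ℂ) (β : ℝ), ¬ (f y = f (y + (rad r i : ℂ) * cis β) ∧
    f (y + (rad r i : ℂ) * cis β) = f (y + ((1 : ℝ) : ℂ) * cis (β + ang g g' i)))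

variable {f G : ℂ → Bool} {r g g' : ℝ}

lemma rad_pos (hr : 1 < r) (i : Fin 4) : 0 < rad r i := by
  have h0 : 0 < r := by linarith
  fin_cases i <;> simp [rad, h0]

/-- the first point -/
noncomputable def P1 (r : ℝ) (s : ℝ) (z : ℂ) (i : Fin 4) (p : ℝ × ℝ) : ℂ := z + Phi s (rad r i) 0 p

/-- the second point -/
noncomputable def P2 (g g' : ℝ) (s : ℝ) (z : ℂ) (i : Fin 4) (p : ℝ × ℝ) : ℂ :=
  z + Phi s 1 (ang g g' i) p

lemma P1_eq (s : ℝ) (z : ℂ) (i : Fin 4) (α β : ℝ) :
    P1 r s z i (α, β) = (z + (s : ℂ) * cis α) + (rad r i : ℂ) * cis β := by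
  unfold P1 Phi
  simp only [add_zero]
  ring

lemma P2_eq (s : ℝ) (z : ℂ) (i : Fin 4) (α β : ℝ) :
    P2 g g' s z i (α, β) = (z + (s : ℂ) * cis α) + ((1 : ℝ) : ℂ) * cis (β + ang g g' i) := by
  unfold P2 Phi
  ring

lemma continuous_P1 (s : ℝ) (z : ℂ) (i : Fin 4) : Continuous (P1 r s z i) := by
  unfold P1
  exact continuous_const.add (continuous_Phi _ _ _)

lemma continuous_P2 (s : ℝ) (z : ℂ) (i : Fin 4) : Continuous (P2 g g' s z i) := by
  unfold P2
  exact continuous_const.add (continuous_Phi _ _ _)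

/-- The pairs of directions for which the two points of the `i`-th relation have the colour `c`. -/
def Ec (G : ℂ → Bool) (r g g' s : ℝ) (z : ℂ) (c : Bool) (i : Fin 4) : Set (ℝ × ℝ) :=
  {p | G (P1 r s z i p) = c ∧ G (P2 g g' s z i p) = c}

lemma measurable_Ec (hG : Measurable G) (s : ℝ) (z : ℂ) (c : Bool) (i : Fin 4) :
    MeasurableSet (Ec G r g g' s z c i) := by
  have h1 : Measurable fun p => G (P1 r s z i p) := hG.comp (continuous_P1 s z i).measurable
  have h2 : Measurable fun p => G (P2 g g' s z i p) := hG.comp (continuous_P2 s z i).measurable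
  exact (h1 (measurableSet_singleton c)).inter (h2 (measurableSet_singleton c))

/-- The total measure of the directions which force the colour `!c`. -/
noncomputable def mc (G : ℂ → Bool) (r g g' s : ℝ) (z : ℂ) (c : Bool) (α : ℝ) : ENNReal :=
  ∑ i : Fin 4, nu (Prod.mk α ⁻¹' Ec G r g g' s z c i)

lemma measurable_mc (hG : Measurable G) (s : ℝ) (z : ℂ) (c : Bool) :
    Measurable (mc G r g g' s z c) := by
  unfold mc
  exact Finset.measurable_sum _ fun i _ => measurable_measure_prodMk_left (measurable_Ec hG s z c i)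

/-- There always are forcing directions. -/
theorem Data.mc_pos (D : Data f G r g g') (s : ℝ) (z : ℂ) (α : ℝ) :
    0 < mc G r g g' s z true α + mc G r g g' s z false α := by
  have hc := continuous_cis
  by_contra hcon
  have h0 : mc G r g g' s z true α + mc G r g g' s z false α = 0 := by
    rwa [not_lt, nonpos_iff_eq_zero] at hcon
  rw [add_eq_zero] at h0
  unfold mc at h0
  rw [Finset.sum_eq_zero_iff, Finset.sum_eq_zero_iff] at h0
  obtain ⟨ht, hf⟩ := h0
  set y : ℂ := z + (s : ℂ) * cis α with hy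
  have key : ∀ i : Fin 4, ∀ᵐ β : ℝ,
      G (y + (rad r i : ℂ) * cis β) ≠ G (y + ((1 : ℝ) : ℂ) * cis (β + ang g g' i)) := by
    intro i
    have h1 := ht i (Finset.mem_univ i)
    have h2 := hf i (Finset.mem_univ i)
    have h3 : ∀ᵐ β ∂nu, G (y + (rad r i : ℂ) * cis β)
        ≠ G (y + ((1 : ℝ) : ℂ) * cis (β + ang g g' i)) := by
      have a1 : ∀ᵐ β ∂nu, β ∉ Prod.mk α ⁻¹' Ec G r g g' s z true i := measure_eq_zero_iff_ae_notMem.1 h1
      have a2 : ∀ᵐ β ∂nu, β ∉ Prod.mk α ⁻¹' Ec G r g g' s z false i := measure_eq_zero_iff_ae_notMem.1 h2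
      filter_upwards [a1, a2] with β b1 b2 heq
      have c1 : ¬ (G (P1 r s z i (α, β)) = true ∧ G (P2 g g' s z i (α, β)) = true) := b1
      have c2 : ¬ (G (P1 r s z i (α, β)) = false ∧ G (P2 g g' s z i (α, β)) = false) := b2
      rw [P1_eq, P2_eq, ← hy, heq] at c1 c2
      cases h : G (y + ((1 : ℝ) : ℂ) * cis (β + ang g g' i))
      · exact c2 ⟨h, h⟩
      · exact c1 ⟨h, h⟩
    unfold nu at h3
    rw [ae_restrict_iff' measurableSet_Ioc] at h3
    refine ae_of_period (a := 0) (fun t => ?_) (by simpa using h3)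
    rw [cis_add_two_pi, show t + 2 * Real.pi + ang g g' i = t + ang g g' i + 2 * Real.pi by ring,
      cis_add_two_pi]
  have k0 := key 0
  have k1 := key 1
  have k2 := key 2
  have k3 := key 3
  simp only [rad, ang, Matrix.cons_val_zero, Matrix.cons_val_one, Matrix.cons_val] at k0 k1 k2 k3
  refine type0 (F := fun t => G (y + ((1 : ℝ) : ℂ) * cis t)) (H := fun t => G (y + (r : ℂ) * cis t))
    (r := r) (g := g) (g' := g') ?_ ?_ D.r1 D.hg D.hg' D.g0 D.gg D.g2 k0 k1 k2 k3
  · have : Measurable fun t : ℝ => G (y + ((1 : ℝ) : ℂ) * cis t) :=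
      D.hG.comp (by fun_prop : Continuous fun t : ℝ => y + ((1 : ℝ) : ℂ) * cis t).measurable
    exact (this (measurableSet_singleton true)).nullMeasurableSet
  · intro t
    rw [cis_add_two_pi]

/-- For almost every direction the two functions agree at almost all the points. -/
theorem Data.agree (D : Data f G r g g') {s : ℝ} (hs : 0 < s) (z : ℂ) :
    ∀ᵐ α ∂nu, ∀ i : Fin 4, ∀ᵐ β ∂nu, f (P1 r s z i (α, β)) = G (P1 r s z i (α, β)) ∧
      f (P2 g g' s z i (α, β)) = G (P2 g g' s z i (α, β)) := by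
  have hN : volume {w | ¬ f w = G w} = 0 := D.hfG
  rw [ae_all_iff]
  intro i
  have h1 := ae_two hN hs (rad_pos D.r1 i) z 0
  have h2 := ae_two hN hs one_pos z (ang g g' i)
  have hle : ∀ {P : ℝ × ℝ → Prop}, (∀ᵐ p : ℝ × ℝ, P p) → ∀ᵐ p ∂(nu.prod nu), P p := fun h =>
    ae_mono nu_prod_le h
  have h3 := Measure.ae_ae_of_ae_prod (hle (h1.and h2))
  filter_upwards [h3] with α hα
  filter_upwards [hα] with β hβ
  obtain ⟨b1, b2⟩ := hβ
  have b1' : ¬ ¬ f (z + (s : ℂ) * cis α + (rad r i : ℂ) * cis (β + 0))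
    = G (z + (s : ℂ) * cis α + (rad r i : ℂ) * cis (β + 0)) := b1
  have b2' : ¬ ¬ f (z + (s : ℂ) * cis α + ((1 : ℝ) : ℂ) * cis (β + ang g g' i))
    = G (z + (s : ℂ) * cis α + ((1 : ℝ) : ℂ) * cis (β + ang g g' i)) := b2
  rw [not_not] at b1' b2'
  rw [add_zero] at b1'
  rw [P1_eq, P2_eq]
  exact ⟨b1', b2'⟩

/-- The colour is forced. -/
theorem Data.forced (D : Data f G r g g') {s : ℝ} (hs : 0 < s) (z : ℂ) (c : Bool) :
    ∀ᵐ α ∂nu, 0 < mc G r g g' s z c α → f (z + (s : ℂ) * cis α) ≠ c := by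
  filter_upwards [D.agree hs z] with α hα hpos hf
  unfold mc at hpos
  obtain ⟨i, -, hi⟩ := Finset.sum_pos_iff.1 hpos
  obtain ⟨β, hβ1, hβ2⟩ : ∃ β, β ∈ Prod.mk α ⁻¹' Ec G r g g' s z c i ∧
      (f (P1 r s z i (α, β)) = G (P1 r s z i (α, β)) ∧
        f (P2 g g' s z i (α, β)) = G (P2 g g' s z i (α, β))) := by
    by_contra hcon
    push Not at hcon
    have : nu (Prod.mk α ⁻¹' Ec G r g g' s z c i) = 0 := by
      rw [measure_eq_zero_iff_ae_notMem]
      filter_upwards [hα i] with β hβ hin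
      exact hcon β hin hβ.1 hβ.2
    rw [this] at hi
    exact lt_irrefl _ hi
  have hβ3 : G (P1 r s z i (α, β)) = c ∧ G (P2 g g' s z i (α, β)) = c := hβ1
  have hrel := D.rel i (z + (s : ℂ) * cis α) β
  rw [← P1_eq, ← P2_eq] at hrel
  apply hrel
  rw [hβ2.1, hβ2.2, hβ3.1, hβ3.2, hf]
  exact ⟨rfl, rfl⟩

end Pool.Agent.Lib.P3852L
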