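import Mathlib
import Pool.Agent.Lib.P3852L.Trace

/-!
# Continuity in measure of the circle traces
-/

set_option autoImplicit false

namespace Pool.Agent.Lib.P3852L

open MeasureTheory Set Pool.Agent.Lib.P3852e9 Topology Filter

variable {f G : ℂ → Bool} {r g g' : ℝ}

/-- The directions in which one of the two points changes its colour. -/
def W1 (G : ℂ → Bool) (r s : ℝ) (z z' : ℂ) (i : Fin 4) : Set (ℝ × ℝ) :=
  {p | G (P1 r s z i p) ≠ G (P1 r s z' i p)}

def W2 (G : ℂ → Bool) (g g' s : ℝ) (z z' : ℂ) (i : Fin 4) : Set (ℝ × ℝ) :=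
  {p | G (P2 g g' s z i p) ≠ G (P2 g g' s z' i p)}

lemma measurable_W1 (hG : Measurable G) (s : ℝ) (z z' : ℂ) (i : Fin 4) :
    MeasurableSet (W1 G r s z z' i) := by
  have h1 : Measurable fun p => G (P1 r s z i p) := hG.comp (continuous_P1 s z i).measurable
  have h2 : Measurable fun p => G (P1 r s z' i p) := hG.comp (continuous_P1 s z' i).measurable
  exact (measurableSet_eq_fun h1 h2).compl

lemma measurable_W2 (hG : Measurable G) (s : ℝ) (z z' : ℂ) (i : Fin 4) :
    MeasurableSet (W2 G g g' s z z' i) := by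
  have h1 : Measurable fun p => G (P2 g g' s z i p) := hG.comp (continuous_P2 s z i).measurable
  have h2 : Measurable fun p => G (P2 g g' s z' i p) := hG.comp (continuous_P2 s z' i).measurable
  exact (measurableSet_eq_fun h1 h2).compl

/-- the total measure of the changes -/
noncomputable def dd (G : ℂ → Bool) (r g g' s : ℝ) (z z' : ℂ) (α : ℝ) : ENNReal :=
  ∑ i : Fin 4, (nu (Prod.mk α ⁻¹' W1 G r s z z' i) + nu (Prod.mk α ⁻¹' W2 G g g' s z z' i))

lemma measurable_dd (hG : Measurable G) (s : ℝ) (z z' : ℂ) :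
    Measurable (dd G r g g' s z z') := by
  unfold dd
  exact Finset.measurable_sum _ fun i _ => (measurable_measure_prodMk_left (measurable_W1 hG s z z' i)).add
    (measurable_measure_prodMk_left (measurable_W2 hG s z z' i))

lemma lintegral_dd (hG : Measurable G) (s : ℝ) (z z' : ℂ) :
    ∫⁻ α, dd G r g g' s z z' α ∂nu =
      ∑ i : Fin 4, ((nu.prod nu) (W1 G r s z z' i) + (nu.prod nu) (W2 G g g' s z z' i)) := by
  unfold dd
  have hm : ∀ i ∈ (Finset.univ : Finset (Fin 4)), Measurable fun α : ℝ =>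
      nu (Prod.mk α ⁻¹' W1 G r s z z' i) + nu (Prod.mk α ⁻¹' W2 G g g' s z z' i) := fun i _ =>
    (measurable_measure_prodMk_left (measurable_W1 hG s z z' i)).add
      (measurable_measure_prodMk_left (measurable_W2 hG s z z' i))
  rw [lintegral_finsetSum _ hm]
  refine Finset.sum_congr rfl fun i _ => ?_
  rw [lintegral_add_left (measurable_measure_prodMk_left (measurable_W1 hG s z z' i)),
    Measure.prod_apply (measurable_W1 hG s z z' i), Measure.prod_apply (measurable_W2 hG s z z' i)]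

lemma tendsto_dd (hG : Measurable G) (hr : 1 < r) {s : ℝ} (hs : 0 < s) (z : ℂ) :
    Tendsto (fun z' => ∫⁻ α, dd G r g g' s z z' α ∂nu) (𝓝 z) (𝓝 0) := by
  have h : ∀ i : Fin 4, Tendsto (fun z' => (nu.prod nu) (W1 G r s z z' i)
      + (nu.prod nu) (W2 G g g' s z z' i)) (𝓝 z) (𝓝 (0 + 0)) := fun i =>
    (tendsto_shift hG hs (rad_pos hr i) 0 z).add (tendsto_shift hG hs one_pos (ang g g' i) z)
  have h2 := tendsto_finsetSum (Finset.univ : Finset (Fin 4)) fun i _ => h i
  simp only [add_zero, Finset.sum_const_zero] at h2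
  refine h2.congr fun z' => ?_
  rw [lintegral_dd hG]

/-- If the colour changes, then the forcing directions change. -/
theorem Data.change (D : Data f G r g g') {s : ℝ} (hs : 0 < s) (z z' : ℂ) :
    ∀ᵐ α ∂nu, f (z + (s : ℂ) * cis α) ≠ f (z' + (s : ℂ) * cis α) →
      mc G r g g' s z true α + mc G r g g' s z false α ≤ dd G r g g' s z z' α := by
  filter_upwards [D.agree hs z, D.agree hs z'] with α h1 h2 hne
  unfold mc dd
  rw [← Finset.sum_add_distrib]
  refine Finset.sum_le_sum fun i _ => ?_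
  have hdisj : Disjoint (Prod.mk α ⁻¹' Ec G r g g' s z true i) (Prod.mk α ⁻¹' Ec G r g g' s z false i) := by
    rw [Set.disjoint_left]
    intro β hβ hβ'
    have b1 : G (P1 r s z i (α, β)) = true := hβ.1
    have b2 : G (P1 r s z i (α, β)) = false := hβ'.1
    rw [b1] at b2
    exact absurd b2 (by decide)
  rw [← measure_union hdisj (measurable_prodMk_left (measurable_Ec D.hG s z false i))]
  refine le_trans ?_ (measure_union_le _ _)
  apply measure_mono_ae
  filter_upwards [h1 i, h2 i] with β b1 b2 hβ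
  by_contra hcon
  have hcon' : β ∉ (Prod.mk α ⁻¹' W1 G r s z z' i) ∪ (Prod.mk α ⁻¹' W2 G g g' s z z' i) := hcon
  rw [mem_union, not_or] at hcon'
  obtain ⟨n1, n2⟩ := hcon'
  have n1' : ¬ (G (P1 r s z i (α, β)) ≠ G (P1 r s z' i (α, β))) := n1
  have n2' : ¬ (G (P2 g g' s z i (α, β)) ≠ G (P2 g g' s z' i (α, β))) := n2
  rw [not_not] at n1' n2'
  have hGG : G (P1 r s z i (α, β)) = G (P2 g g' s z i (α, β)) := by
    rcases hβ with hβ | hβ
    · have c1 : G (P1 r s z i (α, β)) = true ∧ G (P2 g g' s z i (α, β)) = true := hβ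
      rw [c1.1, c1.2]
    · have c1 : G (P1 r s z i (α, β)) = false ∧ G (P2 g g' s z i (α, β)) = false := hβ
      rw [c1.1, c1.2]
  have r1 := D.rel i (z + (s : ℂ) * cis α) β
  have r2 := D.rel i (z' + (s : ℂ) * cis α) β
  rw [← P1_eq, ← P2_eq, b1.1, b1.2] at r1
  rw [← P1_eq, ← P2_eq, b2.1, b2.2, ← n1', ← n2'] at r2
  rw [hGG] at r1 r2
  revert hne r1 r2
  generalize f (z + (s : ℂ) * cis α) = a
  generalize f (z' + (s : ℂ) * cis α) = b
  generalize G (P2 g g' s z i (α, β)) = c
  revert a b c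
  decide

/-- **The circle traces are continuous in measure.** -/
theorem Data.trace_tendsto (D : Data f G r g g') {s : ℝ} (hs : 0 < s) (z : ℂ) :
    Tendsto (fun z' => nu {α | f (z + (s : ℂ) * cis α) ≠ f (z' + (s : ℂ) * cis α)}) (𝓝 z) (𝓝 0) := by
  set m : ℝ → ENNReal := fun α => mc G r g g' s z true α + mc G r g g' s z false α with hm
  have hmm : Measurable m := (measurable_mc D.hG s z true).add (measurable_mc D.hG s z false)
  have hmpos : ∀ α, 0 < m α := fun α => D.mc_pos s z α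
  rw [ENNReal.tendsto_nhds_zero]
  intro ε hε
  -- the threshold
  obtain ⟨η, hη0, hηtop, hη⟩ : ∃ η : ENNReal, η ≠ 0 ∧ η ≠ ⊤ ∧ nu {α | m α ≤ η} ≤ ε / 2 := by
    have h1 := tendsto_measure_iInter_atTop (μ := nu) (s := fun n : ℕ => {α | m α ≤ ((n : ENNReal) + 1)⁻¹})
      (fun n => (measurableSet_le hmm measurable_const).nullMeasurableSet)
      (by
        intro a b hab α hα
        have hα' : m α ≤ ((b : ENNReal) + 1)⁻¹ := hα
        change m α ≤ ((a : ENNReal) + 1)⁻¹
        refine hα'.trans (ENNReal.inv_le_inv.2 ?_)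
        gcongr) ⟨0, measure_ne_top _ _⟩
    have h2 : (⋂ n : ℕ, {α | m α ≤ ((n : ENNReal) + 1)⁻¹}) = ∅ := by
      rw [Set.eq_empty_iff_forall_notMem]
      intro α hα
      rw [Set.mem_iInter] at hα
      obtain ⟨n, hn⟩ := ENNReal.exists_inv_nat_lt (hmpos α).ne'
      have h3 : m α ≤ ((n : ENNReal) + 1)⁻¹ := hα n
      have h4 : ((n : ENNReal) + 1)⁻¹ ≤ (n : ENNReal)⁻¹ := ENNReal.inv_le_inv.2 le_self_add
      exact absurd (h3.trans h4) (not_le.2 hn)
    rw [h2, measure_empty, ENNReal.tendsto_nhds_zero] at h1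
    obtain ⟨n, hn⟩ := (h1 (ε / 2) (ENNReal.half_pos hε.ne')).exists
    refine ⟨((n : ENNReal) + 1)⁻¹, ?_, ?_, hn⟩
    · rw [ne_eq, ENNReal.inv_eq_zero]
      exact ENNReal.add_ne_top.2 ⟨ENNReal.natCast_ne_top n, ENNReal.one_ne_top⟩
    · rw [ne_eq, ENNReal.inv_eq_top]
      simp
  have h5 := (ENNReal.tendsto_nhds_zero.1 (tendsto_dd (g := g) (g' := g') D.hG D.r1 hs z)) (η * (ε / 2))
    (ENNReal.mul_pos hη0 (ENNReal.half_pos hε.ne').ne')
  filter_upwards [h5] with z' hz'
  have h6 : nu {α | η ≤ dd G r g g' s z z' α} ≤ ε / 2 := by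
    have h7 := mul_meas_ge_le_lintegral (μ := nu) (measurable_dd (r := r) (g := g) (g' := g') D.hG s z z') η
    have h8 := h7.trans hz'
    exact (ENNReal.mul_le_mul_iff_right hη0 hηtop).1 h8
  have h9 : nu {α | f (z + (s : ℂ) * cis α) ≠ f (z' + (s : ℂ) * cis α)} ≤
      nu ({α | m α ≤ η} ∪ {α | η ≤ dd G r g g' s z z' α}) := by
    apply measure_mono_ae
    filter_upwards [D.change hs z z'] with α hα hin
    have h10 := hα hin
    rcases le_total (m α) η with h11 | h11
    · exact Or.inl h11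
    · exact Or.inr (h11.trans h10)
  calc nu {α | f (z + (s : ℂ) * cis α) ≠ f (z' + (s : ℂ) * cis α)}
      ≤ nu ({α | m α ≤ η} ∪ {α | η ≤ dd G r g g' s z z' α}) := h9
    _ ≤ nu {α | m α ≤ η} + nu {α | η ≤ dd G r g g' s z z' α} := measure_union_le _ _
    _ ≤ ε / 2 + ε / 2 := add_le_add hη h6
    _ = ε := ENNReal.add_halves ε

end Pool.Agent.Lib.P3852L
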