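import Mathlib
import Pool.Agent.Lib.P3852e9.Ert
import Pool.Agent.Lib.P3852L.Cont

/-!
# Lebesgue measurable colourings, ratio between 1 and 2
-/

set_option autoImplicit false

namespace Pool.Agent.Lib.P3852L

open MeasureTheory Set Pool.Agent.Lib.P3852e9 Topology Filter

variable {f G : ℂ → Bool} {r g g' : ℝ}

lemma nu_ae_of_ae {P : ℝ → Prop} (h : ∀ᵐ t : ℝ, P t) : ∀ᵐ t ∂nu, P t := by
  unfold nu
  exact ae_restrict_of_ae h

lemma ae_of_nu {P : ℝ → Prop} (hP : ∀ t, P (t + 2 * Real.pi) ↔ P t) (h : ∀ᵐ t ∂nu, P t) :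
    ∀ᵐ t : ℝ, P t := by
  unfold nu at h
  rw [ae_restrict_iff' measurableSet_Ioc] at h
  exact ae_of_period (a := 0) hP (by simpa using h)

lemma per_int {P : ℝ → Prop} (hP : ∀ t, P (t + 2 * Real.pi) ↔ P t) (k : ℤ) (t : ℝ) :
    P (t + k * (2 * Real.pi)) ↔ P t := by
  have hQ : ∀ (n : ℕ) (t : ℝ), P (t + n * (2 * Real.pi)) ↔ P t := by
    intro n
    induction n with
    | zero => intro t; simp
    | succ n ih =>
      intro t
      have e : t + ((n + 1 : ℕ) : ℝ) * (2 * Real.pi) = (t + n * (2 * Real.pi)) + 2 * Real.pi := by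
        push_cast; ring
      rw [e, hP, ih]
  obtain ⟨n, rfl | rfl⟩ := k.eq_nat_or_neg
  · exact_mod_cast hQ n t
  · rw [← hQ n (t + ((-(n : ℤ) : ℤ) : ℝ) * (2 * Real.pi))]
    have e : t + ((-(n : ℤ) : ℤ) : ℝ) * (2 * Real.pi) + n * (2 * Real.pi) = t := by
      push_cast; ring
    rw [e]

/-- rotation of a set of angles -/
lemma nu_rot {P : ℝ → Prop} (hP : ∀ t, P (t + 2 * Real.pi) ↔ P t) (δ : ℝ) :
    nu {α | P (α + δ)} ≤ 2 * nu {α | P α} := by
  obtain ⟨k, hk, -⟩ := existsUnique_add_zsmul_mem_Ioc (Real.two_pi_pos) δ 0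
  rw [zsmul_eq_mul, zero_add] at hk
  set δ0 : ℝ := δ + k * (2 * Real.pi) with hδ0
  set S : Set ℝ := {α | P α} ∩ Ioc 0 (2 * Real.pi) with hS
  have hnu : ∀ T : Set ℝ, nu T = volume (T ∩ Ioc 0 (2 * Real.pi)) := by
    intro T
    unfold nu
    rw [Measure.restrict_apply' measurableSet_Ioc]
  have hsub : {α | P (α + δ)} ∩ Ioc 0 (2 * Real.pi) ⊆
      (fun α => α + δ0) ⁻¹' S ∪ (fun α => α + (δ0 - 2 * Real.pi)) ⁻¹' S := by
    rintro α ⟨hα, h0, h1⟩
    have hα' : P (α + δ0) := by
      rw [hδ0, ← add_assoc]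
      exact (per_int hP k (α + δ)).2 hα
    by_cases h2 : α + δ0 ≤ 2 * Real.pi
    · left
      exact ⟨hα', by change 0 < α + δ0; linarith [hk.1], h2⟩
    · right
      push Not at h2
      refine ⟨?_, ?_, ?_⟩
      · change P (α + (δ0 - 2 * Real.pi))
        rw [← hP]
        have e : α + (δ0 - 2 * Real.pi) + 2 * Real.pi = α + δ0 := by ring
        rwa [e]
      · change 0 < α + (δ0 - 2 * Real.pi)
        linarith
      · change α + (δ0 - 2 * Real.pi) ≤ 2 * Real.pi
        linarith [hk.2]
  rw [hnu, hnu, ← hS]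
  refine (measure_mono hsub).trans ((measure_union_le _ _).trans ?_)
  rw [measure_preimage_add_right, measure_preimage_add_right, two_mul]

/-- The trace at every point is measurable. -/
theorem Data.trace_null (D : Data f G r g g') {s : ℝ} (hs : 0 < s) (z : ℂ) :
    NullMeasurableSet {t : ℝ | f (z + (s : ℂ) * cis t) = true} volume := by
  have hm : MeasurableSet {t : ℝ | 0 < mc G r g g' s z false t} :=
    measurableSet_lt measurable_const (measurable_mc D.hG s z false)
  refine hm.nullMeasurableSet.congr ?_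
  have h1 : ∀ᵐ t ∂nu, (0 < mc G r g g' s z false t ↔ f (z + (s : ℂ) * cis t) = true) := by
    filter_upwards [D.forced hs z true, D.forced hs z false] with t ht hf
    constructor
    · intro h
      have := hf h
      cases h2 : f (z + (s : ℂ) * cis t)
      · exact absurd h2 this
      · rfl
    · intro h
      have h3 := D.mc_pos s z t
      by_contra hcon
      rw [not_lt, nonpos_iff_eq_zero] at hcon
      rw [hcon, add_zero] at h3
      exact ht h3 h
  have h2 : ∀ᵐ t : ℝ, (0 < mc G r g g' s z false t ↔ f (z + (s : ℂ) * cis t) = true) := by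
    refine ae_of_nu (fun t => ?_) h1
    have e1 : mc G r g g' s z false (t + 2 * Real.pi) = mc G r g g' s z false t := by
      unfold mc
      refine Finset.sum_congr rfl fun i _ => ?_
      congr 1
      ext β
      change (G (P1 r s z i (t + 2 * Real.pi, β)) = false ∧ G (P2 g g' s z i (t + 2 * Real.pi, β)) = false) ↔
        (G (P1 r s z i (t, β)) = false ∧ G (P2 g g' s z i (t, β)) = false)
      rw [P1_eq, P1_eq, P2_eq, P2_eq, cis_add_two_pi]
    rw [e1, cis_add_two_pi]
  filter_upwards [h2] with t ht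
  exact propext ht

/-- Near the frontier the relations hold almost everywhere. -/
theorem Data.relAt (D : Data f G r g g') {z : ℂ} (hz : z ∈ frontier {w | f w = true}) (i : Fin 4) :
    ∀ᵐ t : ℝ, f (z + (rad r i : ℂ) * cis t) ≠ f (z + ((1 : ℝ) : ℂ) * cis (t + ang g g' i)) := by
  have key : ∀ c : Bool, z ∈ closure {w | f w = c} →
      nu {t | f (z + (rad r i : ℂ) * cis t) = c ∧
        f (z + ((1 : ℝ) : ℂ) * cis (t + ang g g' i)) = c} = 0 := by
    intro c hc
    rw [← nonpos_iff_eq_zero]
    refine le_of_forall_pos_le_add fun ε hε => ?_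
    rw [zero_add]
    have hε3 : 0 < ε / 3 := ENNReal.div_pos hε.ne' (by norm_num)
    have t1 := ENNReal.tendsto_nhds_zero.1 (D.trace_tendsto (rad_pos D.r1 i) z) (ε / 3) hε3
    have t2 := ENNReal.tendsto_nhds_zero.1 (D.trace_tendsto one_pos z) (ε / 3) hε3
    obtain ⟨z', hz', hz1, hz2⟩ := ((mem_closure_iff_frequently.1 hc).and_eventually (t1.and t2)).exists
    have hfz' : f z' = c := hz'
    have hsub : {t | f (z + (rad r i : ℂ) * cis t) = c ∧
        f (z + ((1 : ℝ) : ℂ) * cis (t + ang g g' i)) = c} ⊆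
        {t | f (z + (rad r i : ℂ) * cis t) ≠ f (z' + (rad r i : ℂ) * cis t)} ∪
        {t | f (z + ((1 : ℝ) : ℂ) * cis (t + ang g g' i)) ≠
          f (z' + ((1 : ℝ) : ℂ) * cis (t + ang g g' i))} := by
      rintro t ⟨h1, h2⟩
      by_contra hcon
      rw [mem_union, not_or] at hcon
      obtain ⟨n1, n2⟩ := hcon
      have n1' : f (z + (rad r i : ℂ) * cis t) = f (z' + (rad r i : ℂ) * cis t) := by
        by_contra h; exact n1 h
      have n2' : f (z + ((1 : ℝ) : ℂ) * cis (t + ang g g' i)) =
          f (z' + ((1 : ℝ) : ℂ) * cis (t + ang g g' i)) := by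
        by_contra h; exact n2 h
      apply D.rel i z' t
      rw [← n1', ← n2', h1, h2, hfz']
      exact ⟨rfl, rfl⟩
    have hrot := nu_rot (P := fun t => f (z + ((1 : ℝ) : ℂ) * cis t) ≠ f (z' + ((1 : ℝ) : ℂ) * cis t))
      (fun t => by rw [cis_add_two_pi]) (ang g g' i)
    calc nu {t | f (z + (rad r i : ℂ) * cis t) = c ∧
          f (z + ((1 : ℝ) : ℂ) * cis (t + ang g g' i)) = c}
        ≤ nu {t | f (z + (rad r i : ℂ) * cis t) ≠ f (z' + (rad r i : ℂ) * cis t)} +
          nu {t | f (z + ((1 : ℝ) : ℂ) * cis (t + ang g g' i)) ≠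
            f (z' + ((1 : ℝ) : ℂ) * cis (t + ang g g' i))} :=
          (measure_mono hsub).trans (measure_union_le _ _)
      _ ≤ ε / 3 + 2 * (ε / 3) := by
          refine add_le_add hz1 (hrot.trans ?_)
          gcongr
      _ = ε := by
          rw [two_mul, ← add_assoc]
          exact ENNReal.add_thirds ε
  have hfr := frontier_subset_closure hz
  have h1 := key true hfr
  have h2 := key false (by
    have h3 := hz
    rw [← frontier_compl] at h3
    have h4 := frontier_subset_closure h3
    have e : {w | f w = true}ᶜ = {w | f w = false} := by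
      ext w
      change ¬ (f w = true) ↔ f w = false
      exact Bool.not_eq_true _ ▸ Iff.rfl
    rwa [e] at h4)
  have h3 : ∀ᵐ t ∂nu, f (z + (rad r i : ℂ) * cis t) ≠ f (z + ((1 : ℝ) : ℂ) * cis (t + ang g g' i)) := by
    filter_upwards [measure_eq_zero_iff_ae_notMem.1 h1, measure_eq_zero_iff_ae_notMem.1 h2] with t b1 b2 heq
    have b1' : ¬ (f (z + (rad r i : ℂ) * cis t) = true ∧
      f (z + ((1 : ℝ) : ℂ) * cis (t + ang g g' i)) = true) := b1
    have b2' : ¬ (f (z + (rad r i : ℂ) * cis t) = false ∧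
      f (z + ((1 : ℝ) : ℂ) * cis (t + ang g g' i)) = false) := b2
    rw [heq] at b1' b2'
    cases h : f (z + ((1 : ℝ) : ℂ) * cis (t + ang g g' i))
    · exact b2' ⟨h, h⟩
    · exact b1' ⟨h, h⟩
  refine ae_of_nu (fun t => ?_) h3
  rw [cis_add_two_pi, show t + 2 * Real.pi + ang g g' i = t + ang g g' i + 2 * Real.pi by ring,
    cis_add_two_pi]

theorem Data.impossible (D : Data f G r g g') : False := by
  have hc := continuous_cis
  -- the frontier is not empty
  have hne : (frontier {w | f w = true}).Nonempty := by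
    rw [nonempty_iff_ne_empty]
    intro hcon
    have hcl := frontier_eq_empty_iff.1 hcon
    have h0 := D.rel 0 0 0
    rcases hcl with h | h
    · apply h0
      have hall : ∀ w, f w = false := by
        intro w
        have : w ∉ {w | f w = true} := by rw [h]; exact notMem_empty w
        cases hw : f w
        · rfl
        · exact absurd hw this
      rw [hall, hall, hall]
      exact ⟨rfl, rfl⟩
    · apply h0
      have hall : ∀ w, f w = true := by
        intro w
        have : w ∈ {w | f w = true} := by rw [h]; trivial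
        exact this
      rw [hall, hall, hall]
      exact ⟨rfl, rfl⟩
  obtain ⟨z, hz⟩ := hne
  have k0 := D.relAt hz 0
  have k1 := D.relAt hz 1
  have k2 := D.relAt hz 2
  have k3 := D.relAt hz 3
  simp only [rad, ang, Matrix.cons_val_zero, Matrix.cons_val_one, Matrix.cons_val] at k0 k1 k2 k3
  refine type0 (F := fun t => f (z + ((1 : ℝ) : ℂ) * cis t)) (H := fun t => f (z + (r : ℂ) * cis t))
    (r := r) (g := g) (g' := g') ?_ ?_ D.r1 D.hg D.hg' D.g0 D.gg D.g2 k0 k1 k2 k3
  · exact D.trace_null one_pos z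
  · intro t
    rw [cis_add_two_pi]

/-- A Lebesgue measurable 2-colouring of the plane does not avoid two sizes with ratio strictly
between 1 and 2 (sizes `1` and `r`). -/
theorem partC (f : ℂ → Bool) (hf : NullMeasurableSet {z | f z = true} volume) {r : ℝ}
    (h1 : 1 < r) (h2 : r < 2) (ha : AvTri f 1 1 1) (hr : AvTri f r r r) : False := by
  classical
  have hr0 : 0 < r := by linarith
  obtain ⟨T, -, hT, hTf⟩ := hf.exists_measurable_superset_ae_eq
  set G : ℂ → Bool := fun z => if z ∈ T then true else false with hGdef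
  have hG : Measurable G := Measurable.ite hT measurable_const measurable_const
  have hfG : f =ᵐ[volume] G := by
    filter_upwards [hTf] with z hz
    have hz' : z ∈ T ↔ f z = true := by
      constructor
      · intro h; exact (iff_of_eq hz).1 h
      · intro h; exact (iff_of_eq hz).2 h
    by_cases h : z ∈ T
    · rw [hz'.1 h]
      simp [hGdef, h]
    · have : f z = false := by
        cases hfz : f z
        · rfl
        · exact absurd (hz'.2 hfz) h
      rw [this]
      simp [hGdef, h]
  set g : ℝ := Real.arccos (r / 2) with hgdef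
  set g' : ℝ := Real.arccos (1 / (2 * r)) with hgdef'
  have hcg : Real.cos g = r / 2 := Real.cos_arccos (by linarith) (by linarith)
  have hcg' : Real.cos g' = 1 / (2 * r) := by
    apply Real.cos_arccos
    · have : 0 < 1 / (2 * r) := by positivity
      linarith
    · rw [div_le_one (by positivity)]; linarith
  have hrg' : r * Real.cos g' = 1 / 2 := by rw [hcg']; field_simp
  have hg0 : 0 < g := by rw [hgdef, Real.arccos_pos]; linarith
  have hg'2 : g' < Real.pi / 2 := by rw [hgdef', Real.arccos_lt_pi_div_two]; positivity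
  have hgg : g < g' := by
    rw [hgdef, hgdef']
    apply Real.strictAntiOn_arccos
    · constructor
      · have : 0 < 1 / (2 * r) := by positivity
        linarith
      · rw [div_le_one (by positivity)]; linarith
    · constructor <;> linarith
    · rw [div_lt_div_iff₀ (by positivity) (by norm_num)]
      nlinarith
  have a11 : AvTri f r 1 1 := avTri_of_avoid hr ha ha
  have a1r : AvTri f r r 1 := avTri_of_avoid hr hr ha
  have hc1 : ∀ (y : ℂ) (t : ℝ), dist y (y + ((1 : ℝ) : ℂ) * cis t) = 1 := by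
    intro y t
    rw [dist_self_add_right, norm_mul, norm_cis, mul_one, Complex.norm_real,
      Real.norm_of_nonneg zero_le_one]
  have hcr : ∀ (y : ℂ) (t : ℝ), dist y (y + (r : ℂ) * cis t) = r := by
    intro y t
    rw [dist_self_add_right, norm_mul, norm_cis, mul_one, Complex.norm_real,
      Real.norm_of_nonneg hr0.le]
  have hdist : ∀ (y : ℂ) (a b c s t : ℝ), 0 ≤ c → a ^ 2 + b ^ 2 - 2 * a * b * Real.cos (t - s) = c ^ 2 →
      dist (y + (a : ℂ) * cis s) (y + (b : ℂ) * cis t) = c := by
    intro y a b c s t hc h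
    have h1 : dist (y + (a : ℂ) * cis s) (y + (b : ℂ) * cis t) ^ 2
        = a ^ 2 + b ^ 2 - 2 * a * b * Real.cos (t - s) := by
      rw [dist_add_left, dist_eq_norm, ← Complex.normSq_eq_norm_sq, Complex.normSq_apply, Real.cos_sub]
      simp only [Complex.sub_re, Complex.sub_im, Complex.mul_re, Complex.mul_im, cis_re, cis_im,
        Complex.ofReal_re, Complex.ofReal_im]
      have h1 := Real.sin_sq_add_cos_sq s
      have h2 := Real.sin_sq_add_cos_sq t
      ring_nf
      nlinarith [h1, h2]
    rw [h] at h1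
    exact (pow_left_inj₀ dist_nonneg hc two_ne_zero).1 h1
  refine Data.impossible (f := f) (G := G) (r := r) (g := g) (g' := g')
    ⟨hG, hfG, h1, hcg, hcg', hg0, hgg, hg'2, ?_⟩
  intro i y β
  fin_cases i
  · simp only [rad, ang, Fin.zero_eta, Matrix.cons_val_zero]
    refine ha _ _ _ (hc1 _ _) ?_ (hc1 _ _)
    apply hdist _ _ _ _ _ _ zero_le_one
    rw [show β + Real.pi / 3 - β = Real.pi / 3 by ring, Real.cos_pi_div_three]
    norm_num
  · simp only [rad, ang, Fin.mk_one, Matrix.cons_val_one, Matrix.cons_val_zero]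
    refine a11 _ _ _ (hcr _ _) ?_ (hc1 _ _)
    apply hdist _ _ _ _ _ _ zero_le_one
    rw [show β + g - β = g by ring, hcg]
    ring
  · simp only [rad, ang, Fin.reduceFinMk, Matrix.cons_val]
    refine a11 _ _ _ (hcr _ _) ?_ (hc1 _ _)
    apply hdist _ _ _ _ _ _ zero_le_one
    rw [show β + -g - β = -g by ring, Real.cos_neg, hcg]
    ring
  · simp only [rad, ang, Fin.reduceFinMk, Matrix.cons_val]
    refine a1r _ _ _ (hcr _ _) ?_ (hc1 _ _)
    apply hdist _ _ _ _ _ _ hr0.le
    rw [show β + g' - β = g' by ring]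
    linear_combination (-2) * hrg'

end Pool.Agent.Lib.P3852L
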