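import Mathlib
import Pool.Agent.Lib.P3852e9.PartB

/-!
# Two-colourings of the plane with Lebesgue measurable classes: ratio at least two

A 2-colouring of the plane with Lebesgue measurable colour classes does not avoid two sizes of
equilateral triangles whose ratio is at least `2`. Proof: if `f` takes the values `1`, `-1` and
avoids the sizes `1` and `r`, then the circular averages of the autocorrelation of `f` at the distances
`1` and `r` are `-1/3`; by Plancherel the autocorrelation is a mixture of the functions
`J₀ (ξ ρ)`, and `J₀ (x) + J₀ (y) > -2/3` for `y ≥ 2 x ≥ 0`: contradiction.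
-/

set_option autoImplicit false

namespace Pool.Agent.Lib.P3852L.OldLebesgueRatioTwo

open MeasureTheory Pool.Agent.Lib.P3852e9

/-- Scaling followed by the standard isometry from the complex plane to the Euclidean plane. -/
private noncomputable def phi (s : ℝ) (z : ℂ) : EuclideanSpace ℝ (Fin 2) :=
  Complex.orthonormalBasisOneI.repr (s • z)

private lemma dist_phi {s : ℝ} (hs : 0 ≤ s) (x y : ℂ) : dist (phi s x) (phi s y) = s * dist x y := by
  unfold phi
  rw [LinearIsometryEquiv.dist_map, dist_smul₀, Real.norm_of_nonneg hs]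

private lemma phi_qmp {s : ℝ} (hs : 0 < s) :
    Measure.QuasiMeasurePreserving (phi s) volume volume := by
  unfold phi
  refine (Complex.orthonormalBasisOneI.repr.measurePreserving.quasiMeasurePreserving).comp
    ⟨measurable_const_smul s, ?_⟩
  rw [Measure.map_addHaar_smul volume hs.ne']
  exact Measure.smul_absolutelyContinuous

/-- **Theorem.** Let `col` be a 2-colouring of the plane whose colour classes are Lebesgue
measurable, and let `0 < 2 d ≤ d'`. Then there is a monochromatic equilateral triangle of side `d` or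
one of side `d'`. -/
theorem result (col : EuclideanSpace ℝ (Fin 2) → Fin 2)
    (hL : ∀ i : Fin 2, NullMeasurableSet (col ⁻¹' {i}) volume)
    (d d' : ℝ) (hd : 0 < d) (hdd : 2 * d ≤ d') :
    (∃ x y z : EuclideanSpace ℝ (Fin 2),
      dist x y = d ∧ dist y z = d ∧ dist x z = d ∧ col x = col y ∧ col y = col z) ∨
    (∃ x y z : EuclideanSpace ℝ (Fin 2),
      dist x y = d' ∧ dist y z = d' ∧ dist x z = d' ∧ col x = col y ∧ col y = col z) := by
  by_contra hcon
  rw [not_or] at hcon
  obtain ⟨h1, h2⟩ := hcon
  set f : ℂ → Bool := fun z => decide (col (phi d z) = 0) with hf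
  have hset : {z | f z = true} = phi d ⁻¹' (col ⁻¹' {0}) := by
    ext z
    simp [hf]
  have hfL : NullMeasurableSet {z | f z = true} volume := by
    rw [hset]
    exact (hL 0).preimage (phi_qmp hd)
  have hcol : ∀ x y : ℂ, f x = f y → col (phi d x) = col (phi d y) := by
    intro x y hxy
    simp only [hf, decide_eq_decide] at hxy
    by_cases h0 : col (phi d x) = 0
    · rw [h0, hxy.1 h0]
    · have h0' : col (phi d y) ≠ 0 := fun h => h0 (hxy.2 h)
      omega
  have hA : ∀ ρ : ℝ, (¬ ∃ x y z : EuclideanSpace ℝ (Fin 2),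
      dist x y = d * ρ ∧ dist y z = d * ρ ∧ dist x z = d * ρ ∧ col x = col y ∧
        col y = col z) → AvTri f ρ ρ ρ := by
    intro ρ hρ x y z hxy hyz hxz ⟨e1, e2⟩
    exact hρ ⟨phi d x, phi d y, phi d z, by rw [dist_phi hd.le, hxy],
      by rw [dist_phi hd.le, hyz], by rw [dist_phi hd.le, hxz], hcol _ _ e1, hcol _ _ e2⟩
  have a1 : AvTri f 1 1 1 := hA 1 (by rwa [mul_one])
  have a2 : AvTri f (d' / d) (d' / d) (d' / d) := hA (d' / d) (by
    rwa [mul_div_cancel₀ d' hd.ne'])
  have hr : 2 ≤ d' / d := by rwa [le_div_iff₀ hd]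
  exact partB f hfL hr a1 a2

end Pool.Agent.Lib.P3852L.OldLebesgueRatioTwo
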